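import Pool.Agent.H0.Robin.Geom

set_option autoImplicit false

namespace Pool.Agent.Results.MP_ce9a4f_an.NoEigenvalueDimFour
open Pool.Agent.Robin

/-- **In dimension `n = 4`, for every `α < 0`, there is a locally deformed half-space
`Ω = {x₄ > h(x')} ≠ H` (with a smooth compactly supported hill `h ≥ 0`) for which the Robin Laplacian
`-Δ_α^Ω` has no spectrum below `-α²`:** its closed form satisfies `q_α[u] ≥ -α² ‖u‖²` on all of
`H¹(Ω)`, and (in particular) it has no eigenvalue below `-α²`. -/
theorem result : ∀ α : ℝ, α < 0 →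
    NoBoundState (fun i => (EuclideanSpace.single i 1 : EuclideanSpace ℝ (Fin 3))) α := by
  intro α hα
  exact ⟨hill α, hill_deformed α hα, fun u G g f H => ⟨form_ineq' α hα H,
    fun lam hl heig => no_eigen' α hα H lam hl heig⟩⟩

end Pool.Agent.Results.MP_ce9a4f_an.NoEigenvalueDimFour
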